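import Pool.Agent.Helper18.RD.Stmts6

/-! Project RD, row ENP: pigeonhole twice. -/

set_option autoImplicit false

namespace Pool.Agent.Helper10.RD6

open Finset Pool.Agent.Helper18.RD

theorem st_ENP : ST_ENP := by
  intro N J d E hN hE hJ hd hM
  classical
  have hJ0 : (0 : ℝ) < J.card := by exact_mod_cast hJ.card_pos
  -- the set of partners of `t`
  set A : (ℕ × ℕ × ℕ × ℕ) → Finset (ℕ × ℕ × ℕ × ℕ) := fun t =>
    (T4 J).filter (fun s => IsSquare (cyc d s * cyc d t)) with hA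
  have hT4 : ((T4 J).card : ℝ) ≤ (J.card : ℝ) ^ 4 := by
    have h : (T4 J).card ≤ J.card * (J.card * (J.card * J.card)) := by
      calc (T4 J).card ≤ (J ×ˢ J ×ˢ J ×ˢ J).card := Finset.card_filter_le _ _
        _ = _ := by simp only [Finset.card_product]
    calc ((T4 J).card : ℝ) ≤ ((J.card * (J.card * (J.card * J.card)) : ℕ) : ℝ) := by
          exact_mod_cast h
      _ = _ := by push_cast; ring
  have hmap : ∀ x ∈ M2 J d, x.2 ∈ T4 J := by
    intro x hx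
    rw [M2, mem_filter, mem_product] at hx
    exact hx.1.2
  have hcard : ((M2 J d).card : ℝ) ≤ ∑ t ∈ T4 J, ((A t).card : ℝ) := by
    rw [Finset.card_eq_sum_card_fiberwise hmap]
    push_cast
    apply Finset.sum_le_sum
    intro t _
    have : ((M2 J d).filter (fun x => x.2 = t)).card ≤ (A t).card := by
      apply Finset.card_le_card_of_injOn Prod.fst
      · intro x hx
        rw [Finset.mem_coe, mem_filter, M2, mem_filter, mem_product] at hx
        obtain ⟨⟨⟨h1, _⟩, h2⟩, h3⟩ := hx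
        rw [hA, Finset.mem_coe]
        rw [mem_filter]
        rw [← h3]
        exact ⟨h1, h2⟩
      · intro x hx y hy hxy
        rw [Finset.mem_coe, mem_filter] at hx hy
        exact Prod.ext hxy (hx.2.trans hy.2.symm)
    exact_mod_cast this
  have hne : (T4 J).Nonempty := by
    rw [Finset.nonempty_iff_ne_empty]
    intro h0
    have h1 : ((M2 J d).card : ℝ) ≤ 0 := by
      rw [h0] at hcard
      simpa using hcard
    have h2 : (J.card : ℝ) ^ 8 ≤ 0 := hM.trans (mul_nonpos_of_nonneg_of_nonpos hE.le h1)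
    have h3 : (0 : ℝ) < (J.card : ℝ) ^ 8 := by positivity
    linarith
  obtain ⟨t, ht, hAt⟩ : ∃ t ∈ T4 J, (J.card : ℝ) ^ 4 ≤ E * ((A t).card : ℝ) := by
    apply Finset.exists_le_of_sum_le hne
    rw [Finset.sum_const, nsmul_eq_mul, ← Finset.mul_sum]
    calc ((T4 J).card : ℝ) * (J.card : ℝ) ^ 4 ≤ (J.card : ℝ) ^ 4 * (J.card : ℝ) ^ 4 := by
          gcongr
      _ = (J.card : ℝ) ^ 8 := by ring
      _ ≤ E * (M2 J d).card := hM
      _ ≤ _ := by gcongr
  have htm : t.1 ∈ J ∧ t.2.1 ∈ J ∧ t.2.2.1 ∈ J ∧ t.2.2.2 ∈ J ∧ t.1 ≠ t.2.2.1 ∧ t.1 ≠ t.2.2.2 ∧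
      t.2.1 ≠ t.2.2.1 ∧ t.2.1 ≠ t.2.2.2 := by
    rw [T4, mem_filter, mem_product, mem_product, mem_product] at ht
    obtain ⟨⟨h1, h2, h3, h4⟩, h5, h6, h7, h8⟩ := ht
    exact ⟨h1, h2, h3, h4, h5, h6, h7, h8⟩
  obtain ⟨m1, m2, m3, m4, n1, n2, n3, n4⟩ := htm
  obtain ⟨a1, b1⟩ := hd _ m1 _ m3 n1
  obtain ⟨a2, b2⟩ := hd _ m1 _ m4 n2
  obtain ⟨a3, b3⟩ := hd _ m2 _ m3 n3
  obtain ⟨a4, b4⟩ := hd _ m2 _ m4 n4
  have hmap2 : ∀ s ∈ A t, ((s.2.1, s.2.2.2) : ℕ × ℕ) ∈ J ×ˢ J := by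
    intro s hs
    rw [hA, mem_filter, T4, mem_filter, mem_product, mem_product, mem_product] at hs
    rw [mem_product]
    exact ⟨hs.1.1.2.1, hs.1.1.2.2.2⟩
  have hcard2 : ((A t).card : ℝ) =
      ∑ p ∈ J ×ˢ J, (((A t).filter (fun s => (s.2.1, s.2.2.2) = p)).card : ℝ) := by
    rw [Finset.card_eq_sum_card_fiberwise hmap2]
    push_cast
    rfl
  obtain ⟨p, hp, hAp⟩ : ∃ p ∈ J ×ˢ J, (J.card : ℝ) ^ 2 ≤
      E * (((A t).filter (fun s => (s.2.1, s.2.2.2) = p)).card : ℝ) := by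
    apply Finset.exists_le_of_sum_le (hJ.product hJ)
    rw [Finset.sum_const, nsmul_eq_mul, ← Finset.mul_sum, ← hcard2, Finset.card_product]
    push_cast
    calc (J.card : ℝ) * J.card * (J.card : ℝ) ^ 2 = (J.card : ℝ) ^ 4 := by ring
      _ ≤ _ := hAt
  have hpos : 0 < ((A t).filter (fun s => (s.2.1, s.2.2.2) = p)).card := by
    rcases Nat.eq_zero_or_pos ((A t).filter (fun s => (s.2.1, s.2.2.2) = p)).card with h | h
    · rw [h] at hAp
      have h3 : (0 : ℝ) < (J.card : ℝ) ^ 2 := by positivity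
      simp at hAp
      exact absurd hAp (ne_of_gt hJ.card_pos ∘ fun h => by simp [h])
    · exact h
  obtain ⟨s, hs⟩ := Finset.card_pos.1 hpos
  rw [mem_product] at hp
  refine ⟨p.1, hp.1, p.2, hp.2, cyc d t, ?_, ?_, ?_, ?_⟩
  · rw [mem_filter, hA, mem_filter, T4, mem_filter] at hs
    obtain ⟨⟨⟨_, _, _, _, h8⟩, _⟩, h9⟩ := hs
    rw [← h9]
    exact h8
  · exact mul_ne_zero (mul_ne_zero (mul_ne_zero a1 a2) a3) a4
  · have h : |cyc d t| = |d t.1 t.2.2.1| * |d t.1 t.2.2.2| * |d t.2.1 t.2.2.1| *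
        |d t.2.1 t.2.2.2| := by
      rw [cyc, abs_mul, abs_mul, abs_mul]
    rw [h]
    calc |d t.1 t.2.2.1| * |d t.1 t.2.2.2| * |d t.2.1 t.2.2.1| * |d t.2.1 t.2.2.2| ≤
          (2 * (N : ℤ)) * (2 * N) * (2 * N) * (2 * N) := by gcongr
      _ = 16 * (N : ℤ) ^ 4 := by ring
  · refine hAp.trans (mul_le_mul_of_nonneg_left ?_ hE.le)
    have : ((A t).filter (fun s => (s.2.1, s.2.2.2) = p)).card ≤
        ((J ×ˢ J).filter (fun z => z.1 ≠ z.2 ∧ z.1 ≠ p.2 ∧ p.1 ≠ z.2 ∧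
          IsSquare (d z.1 z.2 * d z.1 p.2 * d p.1 z.2 * d p.1 p.2 * cyc d t))).card := by
      apply Finset.card_le_card_of_injOn (fun s => (s.1, s.2.2.1))
      · intro s hs
        rw [Finset.mem_coe, mem_filter, hA, mem_filter, T4, mem_filter, mem_product, mem_product,
          mem_product] at hs
        obtain ⟨⟨⟨⟨h1, h2, h3, h4⟩, h5, h6, h7, h8⟩, h9⟩, h10⟩ := hs
        rw [Finset.mem_coe, mem_filter, mem_product]
        rw [← h10]
        exact ⟨⟨h1, h3⟩, h5, h6, h7, h9⟩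
      · intro x hx y hy hxy
        rw [Finset.mem_coe, mem_filter] at hx hy
        have hq : (x.2.1, x.2.2.2) = (y.2.1, y.2.2.2) := hx.2.trans hy.2.symm
        have hr : (x.1, x.2.2.1) = (y.1, y.2.2.1) := hxy
        have e1 : x.1 = y.1 := (Prod.mk.injEq .. ▸ hr).1
        have e2 : x.2.2.1 = y.2.2.1 := (Prod.mk.injEq .. ▸ hr).2
        have e3 : x.2.1 = y.2.1 := (Prod.mk.injEq .. ▸ hq).1
        have e4 : x.2.2.2 = y.2.2.2 := (Prod.mk.injEq .. ▸ hq).2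
        exact Prod.ext e1 (Prod.ext e3 (Prod.ext e2 e4))
    exact_mod_cast this

end Pool.Agent.Helper10.RD6
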