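import Pool.Agent.Helper18.RD.Stmts6

/-! Project RD, row FI6: from tuples of primes to integers. -/

set_option autoImplicit false

namespace Pool.Agent.Helper10.RD6

open Finset Pool.Agent.Helper18.RD

theorem st_FI6 : ST_FI6 := by
  intro K P U g hK hg hU
  classical
  set R := (Icc 1 (P ^ K)).filter (fun r => Odd r) with hR
  have hmap : ∀ t ∈ Fintype.piFinset (fun _ : Fin K => U), (∏ i, t i) ∈ R := by
    intro t ht
    rw [Fintype.mem_piFinset] at ht
    rw [hR, mem_filter, mem_Icc]
    refine ⟨⟨?_, ?_⟩, ?_⟩
    · exact Finset.prod_pos (fun i _ => (hU _ (ht i)).1.pos)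
    · calc ∏ i, t i ≤ ∏ _i : Fin K, P := Finset.prod_le_prod' (fun i _ => (hU _ (ht i)).2.2)
        _ = P ^ K := by simp
    · apply Finset.prod_induction _ Odd (fun _ _ => Odd.mul) odd_one
      intro i _
      exact (hU _ (ht i)).1.odd_of_ne_two (hU _ (ht i)).2.1
  rw [← Finset.sum_fiberwise_of_maps_to hmap, Finset.mul_sum]
  apply Finset.sum_le_sum
  intro r _
  set F := (Fintype.piFinset (fun _ : Fin K => U)).filter (fun t => ∏ i, t i = r) with hF
  have h1 : ∑ t ∈ F, g (∏ i, t i) = (F.card : ℝ) * g r := by
    rw [Finset.sum_congr rfl (fun t ht => by rw [(Finset.mem_filter.1 ht).2]), Finset.sum_const,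
      nsmul_eq_mul]
  rw [h1]
  apply mul_le_mul_of_nonneg_right _ (hg r)
  rcases F.eq_empty_or_nonempty with h0 | ⟨t0, ht0⟩
  · rw [h0]; simp
  · have hs : F ⊆ Fintype.piFinset (fun _ : Fin K => Finset.univ.image t0) := by
      intro t ht
      rw [Fintype.mem_piFinset]
      intro i
      rw [hF, mem_filter, Fintype.mem_piFinset] at ht ht0
      have hp := (hU _ (ht.1 i)).1
      have hd : t i ∣ ∏ j, t0 j := by
        rw [ht0.2, ← ht.2]
        exact Finset.dvd_prod_of_mem t (Finset.mem_univ i)
      obtain ⟨j, _, hj⟩ := (hp.prime.dvd_finsetProd_iff _).1 hd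
      have hq := (hU _ (ht0.1 j)).1
      have he : t i = t0 j := (Nat.prime_dvd_prime_iff_eq hp hq).1 hj
      rw [he]
      exact Finset.mem_image_of_mem t0 (Finset.mem_univ j)
    have hc : F.card ≤ K ^ K := by
      calc F.card ≤ (Fintype.piFinset (fun _ : Fin K => Finset.univ.image t0)).card :=
            Finset.card_le_card hs
        _ = (Finset.univ.image t0).card ^ K := by simp [Fintype.card_piFinset]
        _ ≤ K ^ K := by
            apply Nat.pow_le_pow_left
            calc (Finset.univ.image t0).card ≤ (Finset.univ : Finset (Fin K)).card :=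
                  Finset.card_image_le
              _ = K := by simp
    exact_mod_cast hc

end Pool.Agent.Helper10.RD6
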